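import Mathlib

/-!
# Nef divisors of numerical dimension two on fourfolds with trivial canonical class (MP_5ee2d0_ag)

`X` is a smooth projective fourfold with `K_X ~ 0`, `L` a nef divisor with `L^3 = 0` and `c_2.L^2 > 0` (so
`L^2` is not zero), and a positive multiple of `L` is linearly equivalent to an effective divisor `D`.
Then `L` is semiample.

The model. Let `f : Y → X` be a log resolution of `(X, D)`, an isomorphism outside of `D`, and `S` the
reduced sum of the components of `f^*D`. With the canonical divisor `K_Y` given by the holomorphic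
4-form of `X` the divisor `K_Y + S` is effective, and its support is `S`. The minimal model program
for `K_Y + S` stops (special termination, Fujino). Let `(Y', S')` be its end, `N = K_(Y') + S'`. This is a
nef effective divisor with support `S'`, of the same Iitaka dimension as `L`, and of numerical
dimension two. By adjunction and the abundance theorem for semi divisorial log terminal threefolds
(Fujino 2000) the restriction of `N` to `S'` is semiample. Let `G = e N` be a Cartier multiple with
`O_(S')(G) = φ^*H`, `H` an ample line bundle on the curve `Z` (reduced, possibly reducible),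
`φ : S' → Z` with connected fibres; `G = Σ m_j S_j`.

For a natural number `k` let `⌊(k/M) G⌋ = Σ ⌊(k/M) m_j⌋ S_j`, where `M` is a common multiple of the `m_j`
and `e`, and let `F_k` be the cokernel of `O(⌊((k-1)/M) G⌋) → O(⌊(k/M) G⌋)`. It is a coherent sheaf on `S'`,
and `F_(k+M)` is the product of `F_k` and `φ^*H`.
-/

namespace Pool.Agent.H76.K3

/-- Real classes of divisors on a smooth projective fourfold `W` which dominates `X` and `Y'`. -/
structure Four (P : Type) [AddCommGroup P] [Module ℝ P] where
  /-- the intersection number -/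
  Q : P → P → P → P → ℝ
  add : ∀ a b x y z, Q (a + b) x y z = Q a x y z + Q b x y z
  smul : ∀ (r : ℝ) a x y z, Q (r • a) x y z = r * Q a x y z
  swap : ∀ a b c d, Q a b c d = Q b a c d
  rot : ∀ a b c d, Q a b c d = Q b c d a
  /-- the product of two classes and of `K^2 + c_2` -/
  t : P → P → ℝ
  t_add : ∀ a b x, t (a + b) x = t a x + t b x
  t_smul : ∀ (r : ℝ) a x, t (r • a) x = r * t a x
  t_symm : ∀ a b, t a b = t b a
  /-- nef classes -/
  Nef : P → Prop
  nonneg : ∀ a b c d, Nef a → Nef b → Nef c → Nef d → 0 ≤ Q a b c d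
  /-- an ample class -/
  A : P
  nef_A : Nef A
  /-- a nef class which is not numerically trivial has positive degree -/
  pos : ∀ g, Nef g → Q g g A A ≠ 0 → 0 < Q g A A A
  /-- Hodge index theorem (for the nef class `g`) -/
  index : ∀ g b, Nef g → Q b A g A = 0 → Q b b g A ≤ 0
  /-- Hodge-Riemann bilinear relations: if the product `n.g` in `H^4(W, ℝ)` is primitive, then its square
  is positive or it is zero. -/
  riemann : ∀ n g, (∀ d, Q n g A d = 0) → Q n g n g = 0 → (∀ d e, Q n g d e = 0) ∧ t n g = 0

/-- The model `(Y', S')` and its sheaves. `SA` says that `L` is semiample. -/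
structure Model (P : Type) [AddCommGroup P] [Module ℝ P] (W : Four P) (SA : Prop) where
  /-- the pull backs of `L` and of `G` -/
  L : P
  G : P
  nef_L : W.Nef L
  nef_G : W.Nef G
  /-- `L^3 = 0` and `G^3 = 0` -/
  cube_L : ∀ x, W.Q L L L x = 0
  cube_G : ∀ x, W.Q G G G x = 0
  sq_L : W.Q L L W.A W.A ≠ 0
  sq_G : W.Q G G W.A W.A ≠ 0
  /-- The sum of `G` and an effective divisor is a multiple of `L`, so `G.L^2 = 0`. -/
  orth : ∀ x, W.Q G L L x = 0
  /-- Riemann-Roch theorem on `X` and on `W`, for the multiples of `L`: this number is `c_2(X).L^2`. -/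
  c_two : 0 < W.t L L
  /-- the components `Z_i` of `Z` -/
  I : Type
  [fin : Fintype I]
  [non : Nonempty I]
  /-- the degree of `H` on `Z_i` -/
  δ : I → ℕ
  δ_pos : ∀ i, 0 < δ i
  M : ℕ
  M_pos : 0 < M
  /-- the dimension of `H^q` of `F_k`, restricted to the general fibre of `φ` over `Z_i` -/
  r : ℕ → I → ℕ → ℕ
  /-- the dimension of `H^q(S', F_k)` -/
  f : ℕ → ℕ → ℕ
  /-- Serre's vanishing theorem on `Z` and the Leray spectral sequence for `φ` -/
  serre : ∀ q k, q < 3 → ∃ c : ℤ, ∃ a₀ : ℕ, ∀ a : ℕ, a₀ ≤ a →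
    (f q (k + M * a) : ℤ) = a * ∑ i, (δ i * r q i k : ℤ) + c
  /-- the general fibres of `φ` have dimension two -/
  serre_three : ∀ k, ∃ c a₀ : ℕ, ∀ a, a₀ ≤ a → f 3 (k + M * a) = c
  /-- the dimension of `H^q(Y', O(⌊(k/M) G⌋))` -/
  h : ℕ → ℕ → ℕ
  /-- long exact sequences -/
  euler : ∀ k, (h 0 (k + 1) - h 1 (k + 1) + h 2 (k + 1) - h 3 (k + 1) + h 4 (k + 1) : ℤ) =
    (h 0 k - h 1 k + h 2 k - h 3 k + h 4 k) +
      (f 0 (k + 1) - f 1 (k + 1) + f 2 (k + 1) - f 3 (k + 1))
  two : ∀ k, h 2 (k + 1) ≤ h 2 k + f 2 (k + 1)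
  /-- Serre duality: `K_(Y') - a G` is the opposite of a nonzero effective divisor -/
  four : ∀ a, 0 < a → h 4 (M * a) = 0
  /-- Over a small disc in `Z_i` with general centre `O_(S')(G)` is trivial. In a neighbourhood of its
  preimage in `S'` there is a line bundle with the power `O(G)` of order `M` which is trivial on `S'`
  (exponential sequence; the neighbourhood retracts to the preimage). Let `V` be the normalised cyclic
  covering given by the `M`-th root `z` of the section of `O(G)`. The divisor `z = 0` is reduced, `V` is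
  canonical and Gorenstein since `K + S'` is log canonical and `K_V` is a multiple of this divisor, whose
  direct image is the sum of the sheaves `F_k`. So the fibre of it over the centre of the disc is a
  reduced Gorenstein surface with trivial dualizing sheaf. Its connected components are permuted by
  the group of the covering, since the fibre of `φ` is connected. Let `s` be their number, `V` the
  space `H^1(O)` of one of them, and `B` the cup product on it. -/
  s : I → ℕ
  s_pos : ∀ i, 0 < s i
  V : I → Type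
  [grpV : ∀ i, AddCommGroup (V i)]
  [modV : ∀ i, Module ℂ (V i)]
  [finV : ∀ i, Module.Finite ℂ (V i)]
  B : ∀ i, V i → V i → ℂ
  B_smul : ∀ i (c : ℂ) v w, B i v (c • w) = c * B i v w
  /-- the cup product of two classes of degree one -/
  B_alt : ∀ i v, B i v v = 0
  /-- Serre duality -/
  B_dual : ∀ i v, (∀ w, B i v w = 0) → v = 0
  /-- `h^0 = 1`, `h^1 = dim V`, `h^2 = 1` for a component -/
  sum_zero : ∀ i, ∑ k ∈ Finset.range M, r 0 i k = s i
  sum_one : ∀ i, ∑ k ∈ Finset.range M, r 1 i k = s i * Module.finrank ℂ (V i)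
  sum_two : ∀ i, ∑ k ∈ Finset.range M, r 2 i k = s i
  /-- the pull back of a Cartier multiple `u G_i` of the part `G_i` of `G` which dominates `Z_i` -/
  u : I → ℕ
  u_pos : ∀ i, 0 < u i
  Γ : I → P
  /-- the fibre over a general point of `Z_i` of the pull back of `G` -/
  fib : I → P → P → ℝ
  /-- `G` is the pull back of `H` on the divisors over `S'` -/
  fib_eq : ∀ i x y, W.Q G (Γ i) x y = u i * δ i * fib i x y
  fib_pos : ∀ i, 0 < fib i W.A W.A
  /-- `G` and `Γ i` are trivial on this fibre -/
  fib_G : ∀ i x, fib i G x = 0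
  fib_Γ : ∀ i x, fib i (Γ i) x = 0
  /-- the canonical class of `W` and the linear term of the Riemann-Roch theorem -/
  K : P
  w : P → ℝ
  w_add : ∀ x y, w (x + y) = w x + w y
  /-- The Euler characteristic of `O(a G + Γ i)/O(a G)`: Riemann-Roch theorem on `W`, and, by the same
  argument as for `serre`, near the general fibres over `Z_i` it is `O((a + u) G)/O(a G)`. -/
  rr : ∀ i, ∃ c : ℝ, ∃ a₀ : ℕ, ∀ a : ℕ, a₀ ≤ a →
    (W.Q ((a : ℝ) • G + Γ i) ((a : ℝ) • G + Γ i) ((a : ℝ) • G + Γ i) ((a : ℝ) • G + Γ i) / 24 -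
        W.Q ((a : ℝ) • G + Γ i) ((a : ℝ) • G + Γ i) ((a : ℝ) • G + Γ i) K / 12 +
        W.t ((a : ℝ) • G + Γ i) ((a : ℝ) • G + Γ i) / 24 + w ((a : ℝ) • G + Γ i)) -
      (W.Q ((a : ℝ) • G) ((a : ℝ) • G) ((a : ℝ) • G) ((a : ℝ) • G) / 24 -
        W.Q ((a : ℝ) • G) ((a : ℝ) • G) ((a : ℝ) • G) K / 12 +
        W.t ((a : ℝ) • G) ((a : ℝ) • G) / 24 + w ((a : ℝ) • G)) =
      a * (u i * δ i * ∑ k ∈ Finset.range M, ((r 0 i k : ℝ) - r 1 i k + r 2 i k)) + c
  /-- If `h^0(Y', a G) ≥ 2` then the Iitaka dimension of `L` is positive, and `L` is semiample (Fukuda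
  2002: nef log canonical divisors of positive Iitaka dimension of klt fourfolds, here
  `K_X + ε D`). -/
  fukuda : ∀ a, 0 < a → 2 ≤ h 0 (M * a) → SA

attribute [instance] Model.fin Model.non Model.grpV Model.modV Model.finV

end Pool.Agent.H76.K3
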